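import Pool.Agent.W125.CV.HT
import Pool.Agent.Y733.VR.Ht

/-!
# Discriminants of quadratic extensions `k(√(x₁ - x₂))`
-/

set_option autoImplicit false

open NumberField IsDedekindDomain Height Module
open Pool.Agent.W125.CV

namespace Pool.Agent.X236.VE

variable {k : Type} [Field k] [NumberField k]

/-- A nonzero element of small norm of an ideal given by its factorisation. -/
lemma exists_mult (k : Type) [Field k] [NumberField k] : ∃ C : ℝ, 0 ≤ C ∧
    ∀ (T : Finset (HeightOneSpectrum (𝓞 k))) (c : HeightOneSpectrum (𝓞 k) → ℕ),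
      ∃ s : 𝓞 k, s ≠ 0 ∧ (∀ v ∈ T, v.valuation k (s : k) ≤ WithZero.exp (-(c v : ℤ))) ∧
        Real.log |(Algebra.norm ℚ (s : k) : ℝ)| ≤
          ∑ v ∈ T, (c v : ℝ) * Real.log (Ideal.absNorm v.asIdeal) + C := by
  classical
  set B : ℝ := (4 / Real.pi) ^ NumberField.InfinitePlace.nrComplexPlaces k *
    (finrank ℚ k).factorial / (finrank ℚ k) ^ finrank ℚ k * √|(discr k : ℝ)| with hB
  refine ⟨|Real.log B|, abs_nonneg _, fun T c => ?_⟩
  set I : Ideal (𝓞 k) := ∏ v ∈ T, v.asIdeal ^ c v with hI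
  have hI0 : I ≠ ⊥ := by
    rw [hI, ← Ideal.zero_eq_bot]
    exact Finset.prod_ne_zero_iff.2 fun v _ => pow_ne_zero _ v.ne_bot
  have hI1 : (I : FractionalIdeal (nonZeroDivisors (𝓞 k)) k) ≠ 0 :=
    FractionalIdeal.coeIdeal_ne_zero.2 hI0
  obtain ⟨x, hx, hx0, hxn⟩ := exists_ne_zero_mem_ideal_of_norm_le_mul_sqrt_discr k (Units.mk0 _ hI1)
  rw [Units.val_mk0, FractionalIdeal.mem_coeIdeal] at hx
  obtain ⟨s, hs, rfl⟩ := hx
  have hs0 : s ≠ 0 := by
    rintro rfl
    exact hx0 (map_zero _)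
  refine ⟨s, hs0, fun v hv => ?_, ?_⟩
  · rw [HeightOneSpectrum.valuation_of_algebraMap, HeightOneSpectrum.intValuation_le_pow_iff_mem]
    have h1 : I ≤ v.asIdeal ^ c v := by
      rw [hI]
      exact (Ideal.prod_le_inf).trans (Finset.inf_le hv)
    exact h1 hs
  · rw [Units.val_mk0, FractionalIdeal.coeIdeal_absNorm, hI, map_prod] at hxn
    have hnorm : (0 : ℝ) < |(Algebra.norm ℚ (s : k) : ℝ)| :=
      abs_pos.2 (Pool.Agent.Y733.VR.norm_ne _ hx0)
    have hN : ∀ v : HeightOneSpectrum (𝓞 k), (0 : ℝ) < (Ideal.absNorm v.asIdeal : ℝ) := fun v => by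
      exact_mod_cast (zero_lt_one.trans (HeightOneSpectrum.one_lt_absNorm v))
    have hp : (0 : ℝ) < ∏ v ∈ T, (Ideal.absNorm v.asIdeal : ℝ) ^ c v :=
      Finset.prod_pos fun v _ => pow_pos (hN v) _
    have h2 : |(Algebra.norm ℚ (s : k) : ℝ)| ≤
        (∏ v ∈ T, (Ideal.absNorm v.asIdeal : ℝ) ^ c v) * B := by
      have e : ((|Algebra.norm ℚ ((algebraMap (𝓞 k) k) s)| : ℚ) : ℝ) =
          |(Algebra.norm ℚ (s : k) : ℝ)| := by push_cast; rfl
      rw [e] at hxn
      refine hxn.trans (le_of_eq ?_)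
      rw [hB]
      push_cast
      simp only [map_pow]
      push_cast
      ring
    have hB0 : 0 < B := by
      by_contra hB0
      rw [not_lt] at hB0
      have := mul_nonpos_of_nonneg_of_nonpos hp.le hB0
      linarith
    have h3 := Real.log_le_log hnorm h2
    rw [Real.log_mul hp.ne' hB0.ne', Real.log_prod (fun v _ => (pow_pos (hN v) _).ne')] at h3
    simp only [Real.log_pow] at h3
    linarith [le_abs_self (Real.log B)]

/-- the exponent of the denominator -/
noncomputable def ex (v : HeightOneSpectrum (𝓞 k)) (x : k) : ℕ :=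
  (WithZero.log (v.valuation k x)).toNat

lemma fv_zpow (v : HeightOneSpectrum (𝓞 k)) {x : k} (hx : x ≠ 0) :
    fv v x = (Ideal.absNorm v.asIdeal : ℝ) ^ (WithZero.log (v.valuation k x)) := by
  rw [fv_eq]
  have h0 : v.valuation k x ≠ 0 := (Valuation.ne_zero_iff _).2 hx
  have h1 : ∀ n : ℤ, WithZeroMulInt.toNNReal (HeightOneSpectrum.absNorm_ne_zero v)
      (WithZero.exp n) = (Ideal.absNorm v.asIdeal : NNReal) ^ n := by
    intro n
    rw [WithZeroMulInt.toNNReal_neg_apply _ WithZero.exp_ne_zero]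
    rfl
  nth_rewrite 1 [← WithZero.exp_log h0]
  rw [h1]
  push_cast
  rfl

lemma log_max (v : HeightOneSpectrum (𝓞 k)) (x : k) :
    Real.log (max (fv v x) 1) = (ex v x : ℝ) * Real.log (Ideal.absNorm v.asIdeal) := by
  have hN : (1 : ℝ) < (Ideal.absNorm v.asIdeal : ℝ) := by
    exact_mod_cast HeightOneSpectrum.one_lt_absNorm v
  by_cases hx : x = 0
  · subst hx
    simp [ex]
  · rw [fv_zpow v hx, ex]
    set n : ℤ := WithZero.log (v.valuation k x) with hn
    rcases le_or_gt 0 n with h | h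
    · have h1 : (1 : ℝ) ≤ (Ideal.absNorm v.asIdeal : ℝ) ^ n := one_le_zpow₀ hN.le h
      rw [max_eq_left h1, Real.log_zpow]
      congr 1
      have : ((n.toNat : ℤ) : ℝ) = (n : ℝ) := by rw [Int.toNat_of_nonneg h]
      rw [← this]
      push_cast
      rfl
    · have h1 : (Ideal.absNorm v.asIdeal : ℝ) ^ n < 1 := zpow_lt_one_of_neg₀ hN h
      rw [max_eq_right h1.le, Int.toNat_of_nonpos h.le]
      simp

/-- the exponent is even -/
lemma ex_even (v : HeightOneSpectrum (𝓞 k)) {a b x y : k} (ha : v.valuation k a ≤ 1)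
    (hb : v.valuation k b ≤ 1) (h : y ^ 2 = x ^ 3 + a * x + b) : 2 ∣ ex v x := by
  set w := v.valuation k with hw
  rcases le_or_gt (w x) 1 with h1 | h1
  · have : ex v x = 0 := by
      rw [ex, ← hw]
      by_cases h0 : w x = 0
      · rw [h0]; simp
      · have : WithZero.log (w x) ≤ 0 := by
          have := (WithZero.log_le_log h0 one_ne_zero).2 h1
          rwa [WithZero.log_one] at this
        exact Int.toNat_of_nonpos this
    rw [this]
    exact dvd_zero _
  · have hx0 : x ≠ 0 := by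
      rintro rfl
      rw [map_zero] at h1
      exact absurd h1 (by simp)
    have hwx : w x ≠ 0 := (Valuation.ne_zero_iff _).2 hx0
    have h3 : w (a * x + b) < w (x ^ 3) := by
      refine lt_of_le_of_lt (w.map_add_le (g := w x) ?_ ?_) ?_
      · rw [map_mul]
        calc w a * w x ≤ 1 * w x := by gcongr
          _ = w x := one_mul _
      · exact hb.trans h1.le
      · rw [map_pow]
        have : w x * 1 < w x * (w x * w x) := by
          refine mul_lt_mul_of_pos_left ?_ (zero_lt_iff.2 hwx)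
          calc (1 : WithZero (Multiplicative ℤ)) < w x := h1
            _ = w x * 1 := (mul_one _).symm
            _ ≤ w x * w x := by gcongr
        calc w x = w x * 1 := (mul_one _).symm
          _ < w x * (w x * w x) := this
          _ = w x ^ 3 := by rw [pow_succ, pow_two, mul_assoc]
    have h4 : w y ^ 2 = w x ^ 3 := by
      rw [← map_pow, h, add_assoc, Valuation.map_add_eq_of_lt_left _ h3, map_pow]
    have hwy : w y ≠ 0 := by
      intro h5
      rw [h5] at h4
      simp only [ne_eq, OfNat.ofNat_ne_zero, not_false_eq_true, zero_pow] at h4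
      exact pow_ne_zero 3 hwx h4.symm
    have h5 := congrArg WithZero.log h4
    rw [WithZero.log_pow, WithZero.log_pow] at h5
    have h6 : 0 < WithZero.log (w x) := by
      have := (WithZero.log_lt_log one_ne_zero hwx).2 h1
      rwa [WithZero.log_one] at this
    rw [ex, ← hw]
    simp only [nsmul_eq_mul, Nat.cast_ofNat] at h5
    omega

/-- the local estimate for the difference of two abscissas -/
lemma val_sub (v : HeightOneSpectrum (𝓞 k)) {x1 x2 xR : k} (e1 : 2 ∣ ex v x1) (e2 : 2 ∣ ex v x2)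
    (eR : 2 ∣ ex v xR) (h1 : ex v xR ≤ ex v x1) (h2 : ex v xR ≤ ex v x2) :
    v.valuation k (x1 - x2) ≤ WithZero.exp (2 * ((ex v x1 + ex v x2 - ex v xR) / 2 : ℕ) : ℤ) := by
  have key : ∀ x : k, v.valuation k x ≤ WithZero.exp (ex v x : ℤ) := by
    intro x
    by_cases hx : x = 0
    · subst hx
      rw [map_zero]
      exact zero_le
    · have h0 : v.valuation k x ≠ 0 := (Valuation.ne_zero_iff _).2 hx
      nth_rewrite 1 [← WithZero.exp_log h0]
      rw [WithZero.exp_le_exp, ex]
      exact Int.self_le_toNat _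
  have hm : ∀ x, ex v x ≤ ex v x1 + ex v x2 - ex v xR → v.valuation k x ≤
      WithZero.exp (2 * ((ex v x1 + ex v x2 - ex v xR) / 2 : ℕ) : ℤ) := by
    intro x hx
    refine (key x).trans ?_
    rw [WithZero.exp_le_exp]
    omega
  refine (Valuation.map_sub _ _ _).trans (max_le (hm _ (by omega)) (hm _ (by omega)))

/-- the height relative to `k` -/
lemma log_ht (x : k) (T : Finset (HeightOneSpectrum (𝓞 k)))
    (hT : ∀ v, max (fv v x) 1 ≠ 1 → v ∈ T) :
    logHeight₁ x = ∑ w : InfinitePlace k, (w.mult : ℝ) * Real.log (max (w x) 1) +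
      ∑ v ∈ T, (ex v x : ℝ) * Real.log (Ideal.absNorm v.asIdeal) := by
  have h := height_sum x T hT
  simp only [log_max] at h
  exact h

/-- the sum over the archimedean places -/
noncomputable def arc (x : k) : ℝ :=
  ∑ w : InfinitePlace k, (w.mult : ℝ) * Real.log (max (w x) 1)

lemma log_norm (x : k) (hx : x ≠ 0) : Real.log |(Algebra.norm ℚ x : ℝ)| =
    ∑ w : InfinitePlace k, (w.mult : ℝ) * Real.log (w x) := by
  have h := InfinitePlace.prod_eq_abs_norm x
  have h1 : |(Algebra.norm ℚ x : ℝ)| = ((|Algebra.norm ℚ x| : ℚ) : ℝ) := by push_cast; rfl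
  rw [h1, ← h, Real.log_prod]
  · refine Finset.sum_congr rfl fun v _ => ?_
    rw [Real.log_pow]
  · intro v _
    exact pow_ne_zero _ (v.pos_iff.2 hx).ne'

/-- **A square class of small norm.** -/
theorem exists_sq (k : Type) [Field k] [NumberField k] : ∃ C : ℝ, 0 ≤ C ∧
    ∀ (a b : 𝓞 k) (x1 y1 x2 y2 xR yR : k), y1 ^ 2 = x1 ^ 3 + a * x1 + b →
      y2 ^ 2 = x2 ^ 3 + a * x2 + b → yR ^ 2 = xR ^ 3 + a * xR + b → x1 ≠ x2 →
      (∀ v : HeightOneSpectrum (𝓞 k), 1 < fv v xR → fv v xR ≤ fv v x1) →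
      (∀ v : HeightOneSpectrum (𝓞 k), 1 < fv v xR → fv v xR ≤ fv v x2) →
      ∃ (u : 𝓞 k) (t : k), t ≠ 0 ∧ u ≠ 0 ∧ (u : k) = (x1 - x2) * t ^ 2 ∧
        Real.log |(Algebra.norm ℚ (u : k) : ℝ)| ≤ logHeight₁ x1 + logHeight₁ x2 - logHeight₁ xR +
          arc xR + C := by
  classical
  obtain ⟨C, hC0, hC⟩ := exists_mult k
  refine ⟨2 * C + finrank ℚ k * Real.log 2, by positivity, ?_⟩
  intro a b x1 y1 x2 y2 xR yR h1 h2 hR hne hv1 hv2
  have hδ : x1 - x2 ≠ 0 := sub_ne_zero.2 hne
  set T : Finset (HeightOneSpectrum (𝓞 k)) := (max_support_finite x1).toFinset ∪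
    (max_support_finite x2).toFinset ∪ (max_support_finite xR).toFinset with hT
  have hT1 : ∀ v, max (fv v x1) 1 ≠ 1 → v ∈ T := fun v hv =>
    Finset.mem_union_left _ (Finset.mem_union_left _ ((Set.Finite.mem_toFinset _).2 hv))
  have hT2 : ∀ v, max (fv v x2) 1 ≠ 1 → v ∈ T := fun v hv =>
    Finset.mem_union_left _ (Finset.mem_union_right _ ((Set.Finite.mem_toFinset _).2 hv))
  have hT3 : ∀ v, max (fv v xR) 1 ≠ 1 → v ∈ T := fun v hv =>
    Finset.mem_union_right _ ((Set.Finite.mem_toFinset _).2 hv)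
  have hN : ∀ v : HeightOneSpectrum (𝓞 k), (0 : ℝ) < Real.log (Ideal.absNorm v.asIdeal) :=
    fun v => Real.log_pos (by exact_mod_cast HeightOneSpectrum.one_lt_absNorm v)
  have hex : ∀ v (x : k), (∀ v : HeightOneSpectrum (𝓞 k), 1 < fv v xR → fv v xR ≤ fv v x) →
      ex v xR ≤ ex v x := by
    intro v x hx
    have h3 : Real.log (max (fv v xR) 1) ≤ Real.log (max (fv v x) 1) := by
      refine Real.log_le_log (lt_max_of_lt_right one_pos) ?_
      rcases le_or_gt (fv v xR) 1 with h | h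
      · rw [max_eq_right h]; exact le_max_right _ _
      · exact max_le_max (hx v h) le_rfl
    rw [log_max, log_max] at h3
    exact_mod_cast le_of_mul_le_mul_right h3 (hN v)
  have hev : ∀ v {x y : k}, y ^ 2 = x ^ 3 + a * x + b → 2 ∣ ex v x := fun v x y h =>
    ex_even v (HeightOneSpectrum.valuation_le_one v a) (HeightOneSpectrum.valuation_le_one v b) h
  obtain ⟨s, hs0, hs1, hs2⟩ := hC T (fun v => (ex v x1 + ex v x2 - ex v xR) / 2)
  have hs0' : (s : k) ≠ 0 := by
    intro h
    exact hs0 (by exact_mod_cast h)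
  have hint : ∀ v : HeightOneSpectrum (𝓞 k), v.valuation k ((x1 - x2) * (s : k) ^ 2) ≤ 1 := by
    intro v
    by_cases hv : v ∈ T
    · rw [map_mul, map_pow]
      have h3 := val_sub v (hev v h1) (hev v h2) (hev v hR) (hex v x1 hv1) (hex v x2 hv2)
      have h4 := hs1 v hv
      calc v.valuation k (x1 - x2) * v.valuation k (s : k) ^ 2 ≤
          WithZero.exp (2 * ((ex v x1 + ex v x2 - ex v xR) / 2 : ℕ) : ℤ) *
            WithZero.exp (-(((ex v x1 + ex v x2 - ex v xR) / 2 : ℕ) : ℤ)) ^ 2 := by gcongr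
        _ = 1 := by
          rw [← WithZero.exp_nsmul, ← WithZero.exp_add, ← WithZero.exp_zero]
          congr 1
          simp only [nsmul_eq_mul, Nat.cast_ofNat]
          ring
    · have h0 : ∀ x : k, (max (fv v x) 1 ≠ 1 → v ∈ T) → v.valuation k x ≤ 1 := by
        intro x hx
        by_contra hcon
        rw [not_le] at hcon
        apply hv
        apply hx
        have h5 : 1 < fv v x := by
          rw [fv_eq]
          have := WithZeroMulInt.toNNReal_strictMono (HeightOneSpectrum.one_lt_absNorm_nnreal v) hcon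
          rw [map_one] at this
          exact_mod_cast this
        rw [max_eq_left h5.le]
        exact h5.ne'
      rw [map_mul, map_pow]
      have h3 : v.valuation k (x1 - x2) ≤ 1 := (Valuation.map_sub _ _ _).trans
        (max_le (h0 x1 (hT1 v)) (h0 x2 (hT2 v)))
      have h4 : v.valuation k (s : k) ≤ 1 := HeightOneSpectrum.valuation_le_one v s
      calc v.valuation k (x1 - x2) * v.valuation k (s : k) ^ 2 ≤ 1 * 1 ^ 2 := by gcongr
        _ = 1 := by simp
  obtain ⟨u, hu⟩ := HeightOneSpectrum.mem_integers_of_valuation_le_one k _ hint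
  have hu0 : (x1 - x2) * (s : k) ^ 2 ≠ 0 := mul_ne_zero hδ (pow_ne_zero 2 hs0')
  refine ⟨u, s, hs0', ?_, hu, ?_⟩
  · rintro rfl
    exact hu0 (by rw [← hu, map_zero])
  · have hu' : (u : k) = (x1 - x2) * (s : k) ^ 2 := hu
    have e1 : Real.log |(Algebra.norm ℚ (u : k) : ℝ)| =
        Real.log |(Algebra.norm ℚ (x1 - x2) : ℝ)| + 2 * Real.log |(Algebra.norm ℚ (s : k) : ℝ)| := by
      rw [hu', map_mul, map_pow]
      push_cast
      rw [abs_mul, abs_pow, Real.log_mul (abs_pos.2 (Pool.Agent.Y733.VR.norm_ne _ hδ)).ne'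
        (pow_pos (abs_pos.2 (Pool.Agent.Y733.VR.norm_ne _ hs0')) 2).ne', Real.log_pow]
      norm_num
    have e2 : Real.log |(Algebra.norm ℚ (x1 - x2) : ℝ)| ≤ arc x1 + arc x2 +
        finrank ℚ k * Real.log 2 := by
      rw [log_norm _ hδ]
      have hsum : (∑ w : InfinitePlace k, (w.mult : ℝ)) = finrank ℚ k := by
        exact_mod_cast InfinitePlace.sum_mult_eq (K := k)
      rw [← hsum, Finset.sum_mul, arc, arc, ← Finset.sum_add_distrib, ← Finset.sum_add_distrib]
      refine Finset.sum_le_sum fun w _ => ?_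
      rw [← mul_add, ← mul_add]
      refine mul_le_mul_of_nonneg_left ?_ (Nat.cast_nonneg _)
      have p1 : (0 : ℝ) < max (w x1) 1 := lt_max_of_lt_right one_pos
      have p2 : (0 : ℝ) < max (w x2) 1 := lt_max_of_lt_right one_pos
      rw [← Real.log_mul p1.ne' p2.ne', ← Real.log_mul (mul_pos p1 p2).ne' (by norm_num)]
      refine Real.log_le_log (w.pos_iff.2 hδ) ?_
      have q1 : w (x1 - x2) ≤ w x1 + w x2 := by
        have := w.1.sub_le_add x1 x2
        exact this
      have q2 := le_max_left (w x1) 1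
      have q3 := le_max_left (w x2) 1
      have q4 := le_max_right (w x1) 1
      have q5 := le_max_right (w x2) 1
      nlinarith
    have e3 := log_ht x1 T hT1
    have e4 := log_ht x2 T hT2
    have e5 := log_ht xR T hT3
    have e6 : 2 * ∑ v ∈ T, (((ex v x1 + ex v x2 - ex v xR) / 2 : ℕ) : ℝ) *
        Real.log (Ideal.absNorm v.asIdeal) =
        ∑ v ∈ T, (ex v x1 : ℝ) * Real.log (Ideal.absNorm v.asIdeal) +
        ∑ v ∈ T, (ex v x2 : ℝ) * Real.log (Ideal.absNorm v.asIdeal) -
        ∑ v ∈ T, (ex v xR : ℝ) * Real.log (Ideal.absNorm v.asIdeal) := by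
      rw [Finset.mul_sum, ← Finset.sum_add_distrib, ← Finset.sum_sub_distrib]
      refine Finset.sum_congr rfl fun v _ => ?_
      have q1 := hex v x1 hv1
      have q2 := hex v x2 hv2
      have q3 := hev v h1
      have q4 := hev v h2
      have q5 := hev v hR
      have q6 : 2 * ((ex v x1 + ex v x2 - ex v xR) / 2) + ex v xR = ex v x1 + ex v x2 := by omega
      have q7 : (2 : ℝ) * (((ex v x1 + ex v x2 - ex v xR) / 2 : ℕ) : ℝ) + (ex v xR : ℝ) =
          (ex v x1 : ℝ) + (ex v x2 : ℝ) := by exact_mod_cast q6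
      linear_combination Real.log (Ideal.absNorm v.asIdeal) * q7
    rw [e1]
    have e7 : arc x1 = ∑ w : InfinitePlace k, (w.mult : ℝ) * Real.log (max (w x1) 1) := rfl
    have e8 : arc x2 = ∑ w : InfinitePlace k, (w.mult : ℝ) * Real.log (max (w x2) 1) := rfl
    have e9 : arc xR = ∑ w : InfinitePlace k, (w.mult : ℝ) * Real.log (max (w xR) 1) := rfl
    rw [← e7] at e3
    rw [← e8] at e4
    rw [← e9] at e5
    linarith

end Pool.Agent.X236.VE
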