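import Pool.Agent.X236.VE.Loc
import Pool.Agent.X236.VE.Fin
import Pool.Agent.H437R2.Man.MWCan

/-!
# Multiples of a point of infinite order
-/

set_option autoImplicit false

open NumberField IsDedekindDomain Height Module WeierstrassCurve Pool.Agent.TH942
open Pool.Agent.W125.CV

namespace Pool.Agent.X236.VE

variable {k : Type} [Field k] [NumberField k] [DecidableEq k]

lemma sht_xc {a b : k} {P : SPt a b} (hP : P ≠ 0) : sht P = logHeight₁ (xc P) := by
  obtain ⟨x, y, h, rfl⟩ := exists_some hP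
  rw [xc_some, sht, Affine.Point.xRep_some, logHeight₁_eq_logHeight]

/-- heights of the multiples -/
lemma ht_mult {a b : k} (hD : 4 * a ^ 3 + 27 * b ^ 2 ≠ 0) : ∃ C : ℝ, 0 ≤ C ∧
    ∀ (P : SPt a b) (m : ℕ), sht (m • P) ≤ (m : ℝ) ^ 2 * sht P + ((m : ℝ) ^ 2 + 1) * C := by
  obtain ⟨C, hC0, hC⟩ := spar_law hD
  obtain ⟨q, C', h1, h2, h3⟩ := Pool.Agent.H437R2.Man.MW.canon (A := SPt a b) sht C sht_nonneg hC
  obtain ⟨B, hB1, hB2⟩ := Pool.Agent.H437R2.Man.MW.polar q h3
  have hC' : 0 ≤ C' := (abs_nonneg _).trans (h1 0)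
  refine ⟨C', hC', fun P m => ?_⟩
  have h4 : q (m • P) = (m : ℝ) ^ 2 * q P := by
    rw [← hB1, map_nsmul, map_nsmul, AddMonoidHom.nsmul_apply, hB1]
    simp only [nsmul_eq_mul]
    ring
  have h5 := (abs_le.1 (h1 (m • P))).1
  have h6 := (abs_le.1 (h1 P)).2
  rw [h4] at h5
  have h7 : (m : ℝ) ^ 2 * q P ≤ (m : ℝ) ^ 2 * (sht P + C') := by
    refine mul_le_mul_of_nonneg_left ?_ (by positivity)
    linarith
  linarith

/-- **Good multiples.** -/
theorem exists_good {a b : k} (R : SPt a b) (hR : ∀ n : ℕ, n ≠ 0 → n • R ≠ 0) :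
    ∃ C : ℝ, ∀ N : ℕ, ∃ n : ℕ, N ≤ n ∧ n ≠ 0 ∧ arc (xc (n • R)) ≤ C := by
  classical
  set r : ℕ := Fintype.card (InfinitePlace k) with hr
  have h1 : ∀ (w : InfinitePlace k) (i : ℕ), ∃ M : ℝ, i ≠ 0 → ∀ P : SPt a b, P ≠ 0 →
      M ≤ w (xc P) → P + i • R ≠ 0 ∧ w (xc (P + i • R)) ≤ M := by
    intro w i
    by_cases hi : i = 0
    · exact ⟨0, fun h => absurd hi h⟩
    · obtain ⟨M, hM⟩ := arch_add w.1 (hR i hi)
      exact ⟨M, fun _ P hP h => hM P hP h⟩
  choose M hM using h1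
  obtain ⟨M0, hM0⟩ : ∃ M0 : ℝ, ∀ w, ∀ i ∈ Finset.range (r + 1), M w i ≤ M0 := by
    refine ⟨∑ w, ∑ i ∈ Finset.range (r + 1), |M w i|, fun w i hi => ?_⟩
    calc M w i ≤ |M w i| := le_abs_self _
      _ ≤ ∑ i ∈ Finset.range (r + 1), |M w i| :=
        Finset.single_le_sum (f := fun i => |M w i|) (fun _ _ => abs_nonneg _) hi
      _ ≤ _ := Finset.single_le_sum (f := fun w => ∑ i ∈ Finset.range (r + 1), |M w i|)
        (fun _ _ => Finset.sum_nonneg fun _ _ => abs_nonneg _) (Finset.mem_univ w)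
  refine ⟨∑ w : InfinitePlace k, (w.mult : ℝ) * Real.log (max M0 1), fun N => ?_⟩
  -- some shift is good
  have key : ∃ i ∈ Finset.range (r + 1), ∀ w : InfinitePlace k, w (xc ((N + 1 + i) • R)) ≤ M0 := by
    by_contra hcon
    push Not at hcon
    choose! f hf using hcon
    obtain ⟨i, hi, j, hj, hij, hfij⟩ := Finset.exists_ne_map_eq_of_card_lt_of_maps_to
      (s := Finset.range (r + 1)) (t := (Finset.univ : Finset (InfinitePlace k))) (f := f)
      (by rw [Finset.card_range, Finset.card_univ]; omega) (fun _ _ => Finset.mem_univ _)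
    wlog hlt : i < j generalizing i j
    · exact this j hj i hi (Ne.symm hij) hfij.symm (by omega)
    have h2 := hf i hi
    have h3 := hf j hj
    have hji : j - i ∈ Finset.range (r + 1) := by
      rw [Finset.mem_range] at hj ⊢
      omega
    have h4 := (hM (f i) (j - i) (by omega) ((N + 1 + i) • R) (hR _ (by omega))
      ((hM0 _ _ hji).trans h2.le)).2
    rw [← add_nsmul, show N + 1 + i + (j - i) = N + 1 + j by omega, hfij] at h4
    have h5 := hM0 (f j) _ hji
    linarith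
  obtain ⟨i, hi, h2⟩ := key
  refine ⟨N + 1 + i, by omega, by omega, ?_⟩
  refine Finset.sum_le_sum fun w _ => mul_le_mul_of_nonneg_left ?_ (Nat.cast_nonneg _)
  exact Real.log_le_log (lt_max_of_lt_right one_pos) (max_le_max (h2 w) le_rfl)

/-- the heights of the multiples tend to infinity -/
lemma ht_large {a b : k} (R : SPt a b) (hR : ∀ n : ℕ, n ≠ 0 → n • R ≠ 0) (B : ℝ) :
    ∃ N : ℕ, ∀ n ≥ N, B < sht (n • R) := by
  have hinj : Function.Injective (fun n : ℕ => n • R) := by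
    intro m n h
    by_contra hne
    wlog hlt : m < n generalizing m n
    · exact this h.symm (Ne.symm hne) (by omega)
    refine hR (n - m) (by omega) ?_
    have h1 : n • R = (n - m) • R + m • R := by rw [← add_nsmul, Nat.sub_add_cancel hlt.le]
    have h2 : m • R = n • R := h
    rw [← h2] at h1
    exact right_eq_add.1 h1
  have hfin : {n : ℕ | sht (n • R) ≤ B}.Finite :=
    Set.Finite.preimage (hinj.injOn) (sfinite_ht B)
  obtain ⟨N, hN⟩ := hfin.bddAbove
  refine ⟨N + 1, fun n hn => ?_⟩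
  by_contra hcon
  rw [not_lt] at hcon
  have := hN hcon
  omega

/-- the finite absolute values of the multiples -/
lemma fv_mult (v : HeightOneSpectrum (𝓞 k)) {a b : 𝓞 k} (R : SPt (a : k) (b : k))
    (hR : ∀ n : ℕ, n ≠ 0 → n • R ≠ 0) (m : ℕ) (hm : m ≠ 0) (h : 1 < fv v (xc R)) :
    fv v (xc R) ≤ fv v (xc (m • R)) := by
  have hna : IsNonarchimedean (fv v) := by
    intro x y
    have h2 := HeightOneSpectrum.adicAbv_add_le_max k v x y
    rw [← FinitePlace.norm_embedding, ← FinitePlace.norm_embedding,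
      ← FinitePlace.norm_embedding] at h2
    exact h2
  have hint : ∀ c : 𝓞 k, fv v (c : k) ≤ 1 := fun c => FinitePlace.norm_le_one k v c
  exact na_mult hna (hint a) (hint b) hR h m hm

end Pool.Agent.X236.VE
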