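import Mathlib

/-!
# Polynomials vanishing at many points of `y² = x³ + a x + b`
-/

set_option autoImplicit false

open Polynomial

namespace Pool.Agent.X236.VE

variable {F : Type} [Field F]

/-- `φ` agrees with `p(x) + q(x) y` on the curve, with the degree bounds of order `D` -/
def Adm (a b : F) (D : ℕ) (φ : F → F → F) : Prop :=
  ∃ p q : F[X], 2 * p.natDegree ≤ 3 * D ∧ (q = 0 ∨ 2 * q.natDegree + 3 ≤ 3 * D) ∧
    ∀ x y, y ^ 2 = x ^ 3 + a * x + b → φ x y = p.eval x + q.eval x * y

variable {a b : F}

lemma adm_const (c : F) : Adm a b 0 (fun _ _ => c) :=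
  ⟨C c, 0, by simp, Or.inl rfl, fun x y _ => by simp⟩

lemma adm_mono {D E : ℕ} (h : D ≤ E) {φ : F → F → F} (hφ : Adm a b D φ) : Adm a b E φ := by
  obtain ⟨p, q, h1, h2, h3⟩ := hφ
  exact ⟨p, q, by omega, h2.imp id (by intro; omega), h3⟩

lemma adm_add {D : ℕ} {φ ψ : F → F → F} (h1 : Adm a b D φ) (h2 : Adm a b D ψ) :
    Adm a b D (fun x y => φ x y + ψ x y) := by
  obtain ⟨p, q, g1, g2, h3⟩ := h1
  obtain ⟨r, s, h4, h5, h6⟩ := h2
  refine ⟨p + r, q + s, ?_, ?_, fun x y h => ?_⟩
  · have := natDegree_add_le p r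
    omega
  · by_cases hqs : q + s = 0
    · exact Or.inl hqs
    · right
      have := natDegree_add_le q s
      rcases g2 with h2 | h2 <;> rcases h5 with h5 | h5
      · exact absurd (by rw [h2, h5, add_zero]) hqs
      · rw [h2, zero_add]; exact h5
      · rw [h5, add_zero]; exact h2
      · omega
  · beta_reduce
    rw [h3 x y h, h6 x y h, eval_add, eval_add]
    ring

lemma adm_smul {D : ℕ} (c : F) {φ : F → F → F} (h1 : Adm a b D φ) :
    Adm a b D (fun x y => c * φ x y) := by
  obtain ⟨p, q, h1, h2, h3⟩ := h1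
  refine ⟨C c * p, C c * q, ?_, ?_, fun x y h => ?_⟩
  · have := natDegree_C_mul_le c p
    omega
  · rcases h2 with h2 | h2
    · left; rw [h2, mul_zero]
    · right
      have := natDegree_C_mul_le c q
      omega
  · beta_reduce
    rw [h3 x y h, eval_mul, eval_mul, eval_C]
    ring

lemma adm_x {D : ℕ} {φ : F → F → F} (h1 : Adm a b D φ) :
    Adm a b (D + 1) (fun x y => x * φ x y) := by
  obtain ⟨p, q, h1, h2, h3⟩ := h1
  refine ⟨X * p, X * q, ?_, ?_, fun x y h => ?_⟩
  · have := natDegree_mul_le (p := X) (q := p)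
    have := natDegree_X_le (R := F)
    omega
  · rcases h2 with h2 | h2
    · left; rw [h2, mul_zero]
    · right
      have := natDegree_mul_le (p := X) (q := q)
      have := natDegree_X_le (R := F)
      omega
  · beta_reduce
    rw [h3 x y h, eval_mul, eval_mul, eval_X]
    ring

/-- the cubic -/
noncomputable def cub (a b : F) : F[X] := C 1 * X ^ 3 + C 0 * X ^ 2 + C a * X + C b

lemma cub_eval (x : F) : (cub a b).eval x = x ^ 3 + a * x + b := by
  simp [cub]

lemma cub_natDegree : (cub a b).natDegree = 3 := natDegree_cubic one_ne_zero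

lemma cub_ne : cub a b ≠ 0 := by
  intro h
  have := cub_natDegree (a := a) (b := b)
  rw [h] at this
  simp at this

lemma adm_y {D : ℕ} {φ : F → F → F} (h1 : Adm a b D φ) :
    Adm a b (D + 1) (fun x y => y * φ x y) := by
  obtain ⟨p, q, h1, h2, h3⟩ := h1
  refine ⟨cub a b * q, p, ?_, Or.inr (by omega), fun x y h => ?_⟩
  · rcases h2 with h2 | h2
    · rw [h2, mul_zero, natDegree_zero]; omega
    · have := natDegree_mul_le (p := cub a b) (q := q)
      rw [cub_natDegree] at this
      omega
  · beta_reduce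
    rw [h3 x y h, eval_mul, cub_eval, ← h]
    ring

lemma adm_mon (c : F) (i j : ℕ) : Adm a b (i + j) (fun x y => c * (x ^ i * y ^ j)) := by
  refine adm_smul c ?_
  induction i with
  | zero =>
    rw [zero_add]
    induction j with
    | zero =>
      have h := adm_const (a := a) (b := b) 1
      simpa using h
    | succ j ih =>
      have h := adm_y ih
      refine (?_ : (fun x y : F => y * (x ^ 0 * y ^ j)) = (fun x y : F => x ^ 0 * y ^ (j + 1))) ▸ h
      funext x y
      ring
  | succ i ih =>
    have h := adm_x ih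
    have e : i + 1 + j = i + j + 1 := by ring
    rw [e]
    refine (?_ : (fun x y : F => x * (x ^ i * y ^ j)) = (fun x y : F => x ^ (i + 1) * y ^ j)) ▸ h
    funext x y
    ring

lemma adm_sum {ι : Type} (D : ℕ) (s : Finset ι) (φ : ι → F → F → F)
    (h : ∀ i ∈ s, Adm a b D (φ i)) : Adm a b D (fun x y => ∑ i ∈ s, φ i x y) := by
  classical
  induction s using Finset.induction_on with
  | empty =>
    simp only [Finset.sum_empty]
    exact adm_mono (Nat.zero_le _) (adm_const 0)
  | insert i s hi ih =>
    have h1 := adm_add (h i (Finset.mem_insert_self _ _))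
      (ih fun j hj => h j (Finset.mem_insert_of_mem hj))
    have e : (fun x y : F => ∑ j ∈ insert i s, φ j x y) =
        (fun x y : F => φ i x y + ∑ j ∈ s, φ j x y) := by
      funext x y
      rw [Finset.sum_insert hi]
    rw [e]
    exact h1

/-- **Vanishing.** -/
theorem adm_vanish {D : ℕ} {φ : F → F → F} (h : Adm a b D φ) (s : Finset F)
    (hs : 3 * D < s.card)
    (h1 : ∀ t ∈ s, ∃ u, u ^ 2 = t ^ 3 + a * t + b ∧ φ t u = 0)
    (x y : F) (hxy : y ^ 2 = x ^ 3 + a * x + b) : φ x y = 0 := by
  classical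
  obtain ⟨p, q, hp, hq, hpq⟩ := h
  set N : F[X] := p ^ 2 - cub a b * q ^ 2 with hN
  have hdeg : N.natDegree ≤ 3 * D := by
    refine (natDegree_sub_le _ _).trans (max_le ?_ ?_)
    · have := natDegree_pow_le (p := p) (n := 2)
      omega
    · rcases hq with hq | hq
      · rw [hq]; simp
      · have := natDegree_mul_le (p := cub a b) (q := q ^ 2)
        have := natDegree_pow_le (p := q) (n := 2)
        rw [cub_natDegree] at *
        omega
  have hN0 : N = 0 := by
    by_contra hne
    have hsub : s ⊆ N.roots.toFinset := by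
      intro t ht
      obtain ⟨u, hu, hu2⟩ := h1 t ht
      rw [Multiset.mem_toFinset, mem_roots hne, IsRoot.def, hN, eval_sub, eval_pow, eval_mul,
        eval_pow, cub_eval, ← hu]
      have h3 := hpq t u hu
      rw [hu2] at h3
      linear_combination (-(p.eval t) + (q.eval t) * u) * h3
    have h4 := Finset.card_le_card hsub
    have h5 := Multiset.toFinset_card_le N.roots
    have h6 := N.card_roots'
    omega
  have hpp : p ^ 2 = cub a b * q ^ 2 := sub_eq_zero.1 hN0
  have hq0 : q = 0 := by
    by_contra hq0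
    have h4 : (p ^ 2).natDegree = (cub a b * q ^ 2).natDegree := by rw [hpp]
    rw [natDegree_pow, natDegree_mul cub_ne (pow_ne_zero 2 hq0), natDegree_pow,
      cub_natDegree] at h4
    omega
  have hp0 : p = 0 := by
    rw [hq0] at hpp
    have : p ^ 2 = 0 := by rw [hpp]; ring
    exact pow_eq_zero_iff (two_ne_zero) |>.1 this
  rw [hpq x y hxy, hp0, hq0]
  simp

/-- the restriction of a polynomial in four variables to the last two -/
lemma adm_last {k : Type} [Field k] [Algebra k F] (G : MvPolynomial (Fin 4) k) (D : ℕ)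
    (hD : G.totalDegree ≤ D) (c d : F) :
    Adm a b D (fun x y => MvPolynomial.aeval ![c, d, x, y] G) := by
  have h : ∀ x y : F, MvPolynomial.aeval ![c, d, x, y] G = ∑ m ∈ G.support,
      (algebraMap k F (G.coeff m) * (c ^ m 0 * d ^ m 1)) * (x ^ m 2 * y ^ m 3) := by
    intro x y
    rw [MvPolynomial.aeval_def, MvPolynomial.eval₂_eq']
    refine Finset.sum_congr rfl fun m _ => ?_
    rw [Fin.prod_univ_four]
    simp
    ring
  simp only [h]
  refine adm_sum D _ _ fun m hm => ?_
  refine adm_mono ?_ (adm_mon _ _ _)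
  have h1 := MvPolynomial.le_totalDegree hm
  have h2 : (m.sum fun _ e => e) = m 0 + m 1 + m 2 + m 3 := by
    rw [Finsupp.sum_fintype _ _ (fun _ => rfl), Fin.sum_univ_four]
  omega

/-- the restriction of a polynomial in four variables to the first two -/
lemma adm_first {k : Type} [Field k] [Algebra k F] (G : MvPolynomial (Fin 4) k) (D : ℕ)
    (hD : G.totalDegree ≤ D) (c d : F) :
    Adm a b D (fun x y => MvPolynomial.aeval ![x, y, c, d] G) := by
  have h : ∀ x y : F, MvPolynomial.aeval ![x, y, c, d] G = ∑ m ∈ G.support,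
      (algebraMap k F (G.coeff m) * (c ^ m 2 * d ^ m 3)) * (x ^ m 0 * y ^ m 1) := by
    intro x y
    rw [MvPolynomial.aeval_def, MvPolynomial.eval₂_eq']
    refine Finset.sum_congr rfl fun m _ => ?_
    rw [Fin.prod_univ_four]
    simp
    ring
  simp only [h]
  refine adm_sum D _ _ fun m hm => ?_
  refine adm_mono ?_ (adm_mon _ _ _)
  have h1 := MvPolynomial.le_totalDegree hm
  have h2 : (m.sum fun _ e => e) = m 0 + m 1 + m 2 + m 3 := by
    rw [Finsupp.sum_fintype _ _ (fun _ => rfl), Fin.sum_univ_four]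
  omega

/-- **A polynomial that does not vanish on `E × E` does not vanish at some pair taken from two
large sets of points.** -/
theorem exists_pair {k : Type} [Field k] [Algebra k F] (a b : k) (G : MvPolynomial (Fin 4) k)
    (D : ℕ) (hD : G.totalDegree ≤ D) (c1 d1 c2 d2 : F)
    (h1 : d1 ^ 2 = c1 ^ 3 + algebraMap k F a * c1 + algebraMap k F b)
    (h2 : d2 ^ 2 = c2 ^ 3 + algebraMap k F a * c2 + algebraMap k F b)
    (hG : MvPolynomial.aeval ![c1, d1, c2, d2] G ≠ 0)
    (s t : Finset ℕ) (f g : ℕ → k) (hs : 3 * D < s.card) (ht : 3 * D < t.card)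
    (hsi : Set.InjOn f s) (hti : Set.InjOn f t)
    (hs1 : ∀ i ∈ s, g i ^ 2 = f i ^ 3 + a * f i + b)
    (ht1 : ∀ i ∈ t, g i ^ 2 = f i ^ 3 + a * f i + b) :
    ∃ i ∈ s, ∃ j ∈ t, MvPolynomial.aeval ![f i, g i, f j, g j] G ≠ 0 := by
  classical
  by_contra hcon
  push Not at hcon
  have hcard : ∀ u : Finset ℕ, Set.InjOn f u → (u.image fun i => algebraMap k F (f i)).card =
      u.card := fun u hu =>
    Finset.card_image_of_injOn fun i hi j hj h => hu hi hj ((algebraMap k F).injective h)
  have hon : ∀ i, g i ^ 2 = f i ^ 3 + a * f i + b → (algebraMap k F (g i)) ^ 2 =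
      (algebraMap k F (f i)) ^ 3 + algebraMap k F a * (algebraMap k F (f i)) +
        algebraMap k F b := by
    intro i hi
    have := congrArg (algebraMap k F) hi
    simpa using this
  have key : ∀ i ∈ s,
      MvPolynomial.aeval ![algebraMap k F (f i), algebraMap k F (g i), c2, d2] G = 0 := by
    intro i hi
    refine adm_vanish (adm_last G D hD (algebraMap k F (f i)) (algebraMap k F (g i)))
      (t.image fun i => algebraMap k F (f i)) (by rw [hcard t hti]; exact ht) ?_ c2 d2 h2
    intro z' hz'
    obtain ⟨j, hj, rfl⟩ := Finset.mem_image.1 hz'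
    refine ⟨algebraMap k F (g j), hon j (ht1 j hj), ?_⟩
    have h3 := congrArg (algebraMap k F) (hcon i hi j hj)
    rw [map_zero, ← MvPolynomial.aeval_algebraMap_apply] at h3
    convert h3 using 2
    congr 1
    funext i
    fin_cases i <;> rfl
  apply hG
  refine adm_vanish (adm_first G D hD c2 d2) (s.image fun i => algebraMap k F (f i))
      (by rw [hcard s hsi]; exact hs) ?_ c1 d1 h1
  intro x' hx'
  obtain ⟨i, hi, rfl⟩ := Finset.mem_image.1 hx'
  exact ⟨algebraMap k F (g i), hon i (hs1 i hi), key i hi⟩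

end Pool.Agent.X236.VE
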