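import Pool.Agent.X236.VE.Quad
import Pool.Agent.X236.VE.Mul
import Pool.Agent.X236.VE.Van

/-!
# Quadratic points violating Vojta's inequality with small `ε`
-/

set_option autoImplicit false

open NumberField IsDedekindDomain Height Module WeierstrassCurve Pool.Agent.TH942
open Pool.Agent.W125.CV
open Pool.Agent.Y733.VR

namespace Pool.Agent.X236.VE

variable {k : Type} [Field k] [NumberField k]

lemma ht_ext (L : Type) [Field L] [NumberField L] [Algebra k L] (x : k) :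
    logHeight₁ (algebraMap k L x) = finrank k L * logHeight₁ x := by
  have h := hh_ext L x
  rw [hh_mul_deg, hh_mul_deg, h, finrank_tower k L]
  ring

/-- an elliptic curve with infinitely many points has a point of infinite order -/
lemma exists_inf [DecidableEq k] {a b : k} (hD : 4 * a ^ 3 + 27 * b ^ 2 ≠ 0)
    (hinf : {p : k × k | p.2 ^ 2 = p.1 ^ 3 + a * p.1 + b}.Infinite) :
    ∃ R : SPt a b, ∀ n : ℕ, n ≠ 0 → n • R ≠ 0 := by
  classical
  by_contra hcon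
  push Not at hcon
  obtain ⟨C, hC0, hC⟩ := spar_law hD
  obtain ⟨q, C', h1, h2, h3⟩ := Pool.Agent.H437R2.Man.MW.canon (A := SPt a b) sht C sht_nonneg hC
  obtain ⟨B, hB1, hB2⟩ := Pool.Agent.H437R2.Man.MW.polar q h3
  have hall : ∀ P : SPt a b, sht P ≤ C' := by
    intro P
    obtain ⟨n, hn, hnP⟩ := hcon P
    have h4 : q (n • P) = (n : ℝ) ^ 2 * q P := by
      rw [← hB1, map_nsmul, map_nsmul, AddMonoidHom.nsmul_apply, hB1]
      simp only [nsmul_eq_mul]
      ring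
    have h5 : q (0 : SPt a b) = 0 := by
      rw [← hB1, map_zero]
    rw [hnP, h5] at h4
    have h6 : q P = 0 := by
      have : (n : ℝ) ^ 2 ≠ 0 := pow_ne_zero 2 (Nat.cast_ne_zero.2 hn)
      exact (mul_eq_zero.1 h4.symm).resolve_left this
    have h7 := (abs_le.1 (h1 P)).1
    linarith
  have hfin : (Set.univ : Set (SPt a b)).Finite := by
    refine (sfinite_ht (a := a) (b := b) C').subset fun P _ => hall P
  apply hinf
  have hfin2 : Finite (SPt a b) := Set.finite_univ_iff.1 hfin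
  refine Set.Finite.subset (Set.finite_range (fun P : SPt a b =>
    match P with
    | .zero => ((0, 0) : k × k)
    | .some x y _ => (x, y))) fun p hp => ?_
  have hns := sw_nonsing hD hp
  exact ⟨.some p.1 p.2 hns, rfl⟩

/-- the quadratic points -/
theorem main (a b : 𝓞 k) (hD : 4 * (a : k) ^ 3 + 27 * (b : k) ^ 2 ≠ 0)
    (hinf : {p : k × k | p.2 ^ 2 = p.1 ^ 3 + a * p.1 + b}.Infinite)
    (G : MvPolynomial (Fin 4) k) (F : Type) [Field F] [Algebra k F] (c1 d1 c2 d2 : F)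
    (h1 : d1 ^ 2 = c1 ^ 3 + algebraMap k F a * c1 + algebraMap k F b)
    (h2 : d2 ^ 2 = c2 ^ 3 + algebraMap k F a * c2 + algebraMap k F b)
    (hG : MvPolynomial.aeval ![c1, d1, c2, d2] G ≠ 0) (ε C : ℝ)
    (hε : ε < 1 / (5 * (3 * (G.totalDegree : ℝ) + 1) ^ 2)) :
    ∃ (x1 y1 x2 y2 : k) (L : Type) (_ : Field L) (_ : NumberField L) (_ : Algebra k L) (w : L),
      y1 ^ 2 = x1 ^ 3 + a * x1 + b ∧ y2 ^ 2 = x2 ^ 3 + a * x2 + b ∧
      w ^ 2 = algebraMap k L (x1 - x2) ∧ IntermediateField.adjoin k {w} = ⊤ ∧ finrank k L ≤ 2 ∧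
      MvPolynomial.aeval ![x1, y1, x2, y2] G ≠ 0 ∧
      finrank ℚ k * (ld L - ld k) + ε * ((logHeight₁ x1 + logHeight₁ x2) / 2) + C <
        (logHeight₁ x1 + logHeight₁ x2) / 2 := by
  classical
  obtain ⟨R0, hR0⟩ := exists_inf hD hinf
  obtain ⟨C1, hC1⟩ := exists_good R0 hR0
  obtain ⟨C2, hC20, hC2⟩ := exists_sq k
  obtain ⟨C3, hC30, hC3⟩ := ht_mult hD
  set D : ℕ := G.totalDegree with hDdef
  set M : ℕ := 3 * D + 1 with hM
  have hMR : (M : ℝ) = 3 * (D : ℝ) + 1 := by rw [hM]; push_cast; ring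
  rw [← hMR] at hε
  have hM0 : (1 : ℝ) ≤ M := by rw [hMR]; linarith [Nat.cast_nonneg (α := ℝ) D]
  set ε' : ℝ := max ε 0 with hε'
  have hε1 : ε ≤ ε' := le_max_left _ _
  have hε0 : 0 ≤ ε' := le_max_right _ _
  have hM2 : (0 : ℝ) < 5 * (M : ℝ) ^ 2 := by positivity
  have hε2 : ε' < 1 / (5 * (M : ℝ) ^ 2) := max_lt hε (by positivity)
  have hκ : 0 < 1 - 5 * (M : ℝ) ^ 2 * ε' := by
    rw [lt_div_iff₀ hM2] at hε2
    linarith
  set K0 : ℝ := 2 * (finrank ℚ k * Real.log 2) + C1 + C2 + ε' * ((5 * (M : ℝ) ^ 2 + 2) * C3) +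
    2 * C with hK0
  obtain ⟨N, hN⟩ := ht_large R0 hR0 (K0 / (1 - 5 * (M : ℝ) ^ 2 * ε'))
  obtain ⟨n, hnN, hn0, hn1⟩ := hC1 N
  have hH := hN n hnN
  set R : SPt (a : k) (b : k) := n • R0 with hR
  have hRn : ∀ i : ℕ, i ≠ 0 → i • R ≠ 0 := by
    intro i hi
    rw [hR, ← mul_nsmul']
    exact hR0 _ (mul_ne_zero hi hn0)
  have hR1 : R ≠ 0 := by simpa using hRn 1 one_ne_zero
  have hex : ∀ i : ℕ, ∃ y : k, i ≠ 0 → y ^ 2 = xc (i • R) ^ 3 + a * xc (i • R) + b := by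
    intro i
    by_cases hi : i = 0
    · exact ⟨0, fun h => absurd hi h⟩
    · obtain ⟨x, y, h, he⟩ := exists_some (hRn i hi)
      refine ⟨y, fun _ => ?_⟩
      rw [he, xc_some]
      exact sw_eqn.1 h.1
  choose g hg using hex
  have hne : ∀ i j : ℕ, i ≠ 0 → j ≠ 0 → i ≠ j → xc (i • R) ≠ xc (j • R) := by
    intro i j hi hj hij
    have hgen : ∀ i j : ℕ, i < j → i • R ≠ j • R := by
      intro i j hlt h
      refine hRn (j - i) (by omega) ?_
      have h1 : j • R = (j - i) • R + i • R := by rw [← add_nsmul, Nat.sub_add_cancel hlt.le]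
      rw [← h] at h1
      exact right_eq_add.1 h1
    refine xc_ne (hRn i hi) (hRn j hj) ?_ ?_
    · rcases lt_or_gt_of_ne hij with h | h
      · exact hgen i j h
      · exact (hgen j i h).symm
    · intro h
      refine hRn (i + j) (by omega) ?_
      rw [add_nsmul, h, neg_add_cancel]
  obtain ⟨i, hi, j, hj, hGij⟩ := exists_pair (a : k) (b : k) G D le_rfl c1 d1 c2 d2 h1 h2 hG
    (Finset.Icc 1 M) (Finset.Icc (M + 1) (2 * M)) (fun i => xc (i • R)) g
    (by rw [Nat.card_Icc]; omega) (by rw [Nat.card_Icc]; omega)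
    (fun i hi j hj h => by
      by_contra hij
      rw [Finset.coe_Icc, Set.mem_Icc] at hi hj
      exact hne i j (by omega) (by omega) hij h)
    (fun i hi j hj h => by
      by_contra hij
      rw [Finset.coe_Icc, Set.mem_Icc] at hi hj
      exact hne i j (by omega) (by omega) hij h)
    (fun i hi => hg i (by rw [Finset.mem_Icc] at hi; omega))
    (fun i hi => hg i (by rw [Finset.mem_Icc] at hi; omega))
  rw [Finset.mem_Icc] at hi hj
  have hi0 : i ≠ 0 := by omega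
  have hj0 : j ≠ 0 := by omega
  have hx12 : xc (i • R) ≠ xc (j • R) := hne i j hi0 hj0 (by omega)
  obtain ⟨yR, hyR⟩ : ∃ y : k, y ^ 2 = xc R ^ 3 + a * xc R + b :=
    ⟨g 1, by have := hg 1 one_ne_zero; rwa [one_nsmul] at this⟩
  obtain ⟨u, t, ht, hu0, hu, hlog⟩ := hC2 a b (xc (i • R)) (g i) (xc (j • R)) (g j) (xc R) yR
    (hg i hi0) (hg j hj0) hyR hx12 (fun v hv => fv_mult v R hRn i hi0 hv)
    (fun v hv => fv_mult v R hRn j hj0 hv)
  obtain ⟨σ⟩ : Nonempty (k →+* ℂ) := inferInstance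
  obtain ⟨z, hz⟩ : ∃ z : ℂ, z ^ 2 = σ (xc (i • R) - xc (j • R)) :=
    IsAlgClosed.exists_pow_nat_eq _ (by norm_num)
  obtain ⟨L, _, _, _, τ, w, -, -, hw1, hw2, hw3⟩ := ext_sqrt k σ _ z hz
  refine ⟨xc (i • R), g i, xc (j • R), g j, L, inferInstance, inferInstance, inferInstance, w,
    hg i hi0, hg j hj0, hw1, hw2, hw3, hGij, ?_⟩
  have hld := ld_sqrt k L w hw2 _ t u hu0 ht hu hw1
  have hdeg : (0 : ℝ) < finrank ℚ k := deg_pos
  set S : ℝ := logHeight₁ (xc (i • R)) + logHeight₁ (xc (j • R)) with hS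
  have hS0 : 0 ≤ S := add_nonneg (zero_le_logHeight₁ _) (zero_le_logHeight₁ _)
  set H : ℝ := logHeight₁ (xc R) with hHd
  have hHs : sht R = H := sht_xc hR1
  rw [hHs] at hH
  have e1 : (finrank ℚ k : ℝ) * (ld L - ld k) ≤ finrank ℚ k * Real.log 2 +
      Real.log |(Algebra.norm ℚ (u : k) : ℝ)| / 2 := by
    have : (finrank ℚ k : ℝ) * (ld L - ld k) ≤ finrank ℚ k * (Real.log 2 +
      Real.log |(Algebra.norm ℚ (u : k) : ℝ)| / finrank ℚ k / 2) :=
      mul_le_mul_of_nonneg_left (by linarith) hdeg.le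
    refine this.trans (le_of_eq ?_)
    field_simp
  have e2 : S ≤ 5 * (M : ℝ) ^ 2 * H + (5 * (M : ℝ) ^ 2 + 2) * C3 := by
    have hH0 : 0 ≤ H := zero_le_logHeight₁ _
    have q1 := hC3 R i
    have q2 := hC3 R j
    rw [sht_xc (hRn i hi0), hHs] at q1
    rw [sht_xc (hRn j hj0), hHs] at q2
    have p1 : (i : ℝ) ^ 2 ≤ (M : ℝ) ^ 2 := by
      have : (i : ℝ) ≤ M := by exact_mod_cast hi.2
      exact pow_le_pow_left₀ (Nat.cast_nonneg _) this 2
    have p2 : (j : ℝ) ^ 2 ≤ 4 * (M : ℝ) ^ 2 := by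
      have : (j : ℝ) ≤ 2 * M := by exact_mod_cast hj.2
      have := pow_le_pow_left₀ (Nat.cast_nonneg _) this 2
      linarith [this]
    have p3 := mul_le_mul_of_nonneg_right p1 hH0
    have p4 := mul_le_mul_of_nonneg_right p2 hH0
    have p5 := mul_le_mul_of_nonneg_right p1 hC30
    have p6 := mul_le_mul_of_nonneg_right p2 hC30
    rw [hS]
    linarith
  have e3 : ε * (S / 2) ≤ ε' * (S / 2) := mul_le_mul_of_nonneg_right hε1 (by linarith)
  have e4 : ε' * S ≤ ε' * (5 * (M : ℝ) ^ 2 * H + (5 * (M : ℝ) ^ 2 + 2) * C3) :=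
    mul_le_mul_of_nonneg_left e2 hε0
  rw [div_lt_iff₀ hκ] at hH
  have e5 : K0 < H - 5 * (M : ℝ) ^ 2 * ε' * H := by linarith
  rw [hK0] at e5
  rw [hR] at *
  linarith

end Pool.Agent.X236.VE
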