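import Mathlib
import Pool.Agent.TH942.Par

/-!
# Local estimates for the abscissas of the multiples of a point of `y² = x³ + a x + b`
-/

set_option autoImplicit false
set_option linter.unusedSectionVars false

open WeierstrassCurve Pool.Agent.TH942

namespace Pool.Agent.X236.VE

variable {K : Type} [Field K] [CharZero K] [DecidableEq K]

/-- the abscissa of a point (`1` for the point at infinity) -/
noncomputable def xc {a b : K} (P : SPt a b) : K := P.xRep 0

lemma xc_some {a b x y : K} (h : (sw a b).toAffine.Nonsingular x y) :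
    xc (Affine.Point.some x y h : SPt a b) = x := by
  simp [xc]

lemma exists_some {a b : K} {P : SPt a b} (hP : P ≠ 0) :
    ∃ (x y : K) (h : (sw a b).toAffine.Nonsingular x y), P = Affine.Point.some x y h := by
  rcases P with _ | ⟨x, y, h⟩
  · exact absurd rfl hP
  · exact ⟨x, y, h, rfl⟩

lemma xc_ne {a b : K} {P Q : SPt a b} (hP : P ≠ 0) (hQ : Q ≠ 0) (h1 : P ≠ Q) (h2 : P ≠ -Q) :
    xc P ≠ xc Q := by
  obtain ⟨x1, y1, n1, rfl⟩ := exists_some hP
  obtain ⟨x2, y2, n2, rfl⟩ := exists_some hQ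
  rw [xc_some, xc_some]
  rintro rfl
  have h3 : (Affine.Point.some x1 y1 n1 : SPt a b).xRep =
      (Affine.Point.some x1 y2 n2 : SPt a b).xRep := by
    rw [Affine.Point.xRep_some, Affine.Point.xRep_some]
  rcases Affine.Point.eq_or_eq_neg_of_xRep_eq_xRep h3 with h | h
  · exact h1 h
  · exact h2 h

/-- the abscissas of the sum and of the difference of two points -/
lemma add_sub_formula {a b : K} {P Q : SPt a b} (hP : P ≠ 0) (hQ : Q ≠ 0) (hx : xc P ≠ xc Q) :
    (xc (P + Q) + xc (P - Q)) * (xc P - xc Q) ^ 2 =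
      2 * ((xc P + xc Q) * (a + xc P * xc Q) + 2 * b) ∧
    (xc (P + Q) * xc (P - Q)) * (xc P - xc Q) ^ 2 =
      (xc P * xc Q - a) ^ 2 - 4 * b * (xc P + xc Q) := by
  obtain ⟨x1, y1, n1, rfl⟩ := exists_some hP
  obtain ⟨x2, y2, n2, rfl⟩ := exists_some hQ
  rw [xc_some, xc_some] at hx
  have e1 := sw_eqn.mp n1.1
  have e2 := sw_eqn.mp n2.1
  have n2' : (sw a b).toAffine.Nonsingular x2 (-y2) := by
    have := (Affine.nonsingular_neg x2 y2).2 n2
    simpa [Affine.negY, sw] using this
  have hneg := sneg_mk n2 n2'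
  have h1 : xc (Affine.Point.some x1 y1 n1 + Affine.Point.some x2 y2 n2 : SPt a b) =
      snum a b x1 x2 (y1 * y2) / (x1 - x2) ^ 2 := by
    rw [xc, sxRep_add n1 n2 hx]
    rfl
  have h2 : xc (Affine.Point.some x1 y1 n1 - Affine.Point.some x2 y2 n2 : SPt a b) =
      snum a b x1 x2 (y1 * (-y2)) / (x1 - x2) ^ 2 := by
    rw [sub_eq_add_neg, hneg, xc, sxRep_add n1 n2' hx]
    rfl
  rw [h1, h2, xc_some, xc_some]
  have hx' : x1 - x2 ≠ 0 := sub_ne_zero.mpr hx
  have hx2 : (x1 - x2) ^ 2 ≠ 0 := pow_ne_zero 2 hx'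
  constructor
  · rw [← add_div, div_mul_cancel₀ _ hx2]
    unfold snum
    ring
  · rw [div_mul_div_comm, mul_comm ((x1 - x2) ^ 2), ← div_div, div_mul_cancel₀ _ hx2,
      div_eq_iff hx2]
    unfold snum
    have : (y1 * y2) ^ 2 = (x1 ^ 3 + a * x1 + b) * (x2 ^ 3 + a * x2 + b) := by
      rw [mul_pow, e1, e2]
    linear_combination (-4) * this

lemma double_formula {a b : K} {P : SPt a b} (hP : P ≠ 0) (h2 : P + P ≠ 0) :
    xc (P + P) * (4 * (xc P ^ 3 + a * xc P + b)) =
      xc P ^ 4 - 2 * a * xc P ^ 2 - 8 * b * xc P + a ^ 2 := by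
  obtain ⟨x, y, n, rfl⟩ := exists_some hP
  have e := sw_eqn.mp n.1
  have hy : y ≠ 0 := by
    rintro rfl
    apply h2
    have n' : (sw a b).toAffine.Nonsingular x (-0) := by rwa [neg_zero]
    have h3 := sneg_mk n n'
    have h4 : (Affine.Point.some x (-0) n' : SPt a b) = Affine.Point.some x 0 n := by
      congr 1
      exact neg_zero
    rw [h4] at h3
    nth_rewrite 1 [← h3]
    exact neg_add_cancel _
  rw [xc, sxRep_double n hy, xc_some]
  have hy2 : (4 * y ^ 2 : K) ≠ 0 := mul_ne_zero (by norm_num) (pow_ne_zero 2 hy)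
  have h4 : (![(x ^ 4 - 2 * a * x ^ 2 - 8 * b * x + a ^ 2) / (4 * y ^ 2), 1] : Fin 2 → K) 0 =
      (x ^ 4 - 2 * a * x ^ 2 - 8 * b * x + a ^ 2) / (4 * y ^ 2) := rfl
  rw [h4, ← e, div_mul_cancel₀ _ hy2]

/-! ### The non-archimedean absolute values -/

section nonarch

variable {v : AbsoluteValue K ℝ}

lemma na_eq (hv : IsNonarchimedean v) {x y : K} (h : v y < v x) : v (x + y) = v x := by
  apply le_antisymm
  · exact (hv x y).trans (max_le le_rfl h.le)
  · have h1 : v x ≤ max (v (x + y)) (v y) := by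
      have h2 := hv (x + y) (-y)
      rw [add_neg_cancel_right, v.map_neg] at h2
      exact h2
    rcases le_max_iff.1 h1 with h2 | h2
    · exact h2
    · exact absurd h2 (not_le.2 h)

lemma na_nat (hv : IsNonarchimedean v) (n : ℕ) : v (n : K) ≤ 1 := by
  induction n with
  | zero => simp
  | succ n ih =>
    push_cast
    exact (hv _ _).trans (max_le ih (by rw [map_one]))

/-- the step of the induction -/
lemma na_step (hv : IsNonarchimedean v) {a b x1 xm xp xq : K} (ha : v a ≤ 1) (hb : v b ≤ 1)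
    (h1 : 1 < v x1) (hm : v x1 ≤ v xm) (hq : v x1 ≤ v xq) (hne : xm ≠ x1)
    (hS : (xp + xq) * (xm - x1) ^ 2 = 2 * ((xm + x1) * (a + xm * x1) + 2 * b))
    (hP : (xp * xq) * (xm - x1) ^ 2 = (xm * x1 - a) ^ 2 - 4 * b * (xm + x1)) :
    v x1 ≤ v xp := by
  by_contra hcon
  rw [not_le] at hcon
  have hd : 0 < v (xm - x1) := v.pos (sub_ne_zero.2 hne)
  have hB0 : 0 < v x1 := by linarith
  have hA0 : 0 < v xm := by linarith
  have hA1 : 1 < v xm := by linarith
  have h2 : v (2 : K) ≤ 1 := by exact_mod_cast na_nat hv 2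
  have h4 : v (4 : K) ≤ 1 := by exact_mod_cast na_nat hv 4
  have hAB : 1 < v xm * v x1 := one_lt_mul_of_lt_of_le hA1 h1.le
  -- the product
  have e1 : v (xm * x1 - a) = v xm * v x1 := by
    rw [sub_eq_add_neg, na_eq hv, map_mul]
    rw [v.map_neg, map_mul]
    linarith
  have e2 : v (xm + x1) ≤ v xm := (hv _ _).trans (max_le le_rfl hm)
  have e3 : v (4 * b * (xm + x1)) ≤ v xm := by
    rw [map_mul, map_mul]
    calc v 4 * v b * v (xm + x1) ≤ 1 * 1 * v xm := by gcongr
      _ = v xm := by ring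
  have e4 : v ((xm * x1 - a) ^ 2 - 4 * b * (xm + x1)) = (v xm * v x1) ^ 2 := by
    rw [sub_eq_add_neg, na_eq hv, map_pow, e1]
    rw [v.map_neg, map_pow, e1]
    refine lt_of_le_of_lt e3 ?_
    calc v xm = v xm * 1 := by ring
      _ < v xm * (v xm * v x1 * v x1) := by
        apply mul_lt_mul_of_pos_left _ hA0
        exact one_lt_mul_of_lt_of_le hAB h1.le
      _ = (v xm * v x1) ^ 2 := by ring
  have e5 : v xp * v xq * v (xm - x1) ^ 2 = (v xm * v x1) ^ 2 := by
    rw [← e4, ← hP, map_mul, map_mul, map_pow]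
  -- the sum
  have e6 : v (xp + xq) = v xq := by
    rw [add_comm, na_eq hv]
    linarith
  have e7 : v ((xm + x1) * (a + xm * x1) + 2 * b) ≤ v xm * (v xm * v x1) := by
    refine (hv _ _).trans (max_le ?_ ?_)
    · rw [map_mul]
      refine mul_le_mul e2 ?_ (v.nonneg _) hA0.le
      refine (hv _ _).trans (max_le (by linarith) (by rw [map_mul]))
    · rw [map_mul]
      calc v 2 * v b ≤ 1 * 1 := by gcongr
        _ ≤ v xm * (v xm * v x1) := by nlinarith
  have e8 : v xq * v (xm - x1) ^ 2 ≤ v xm * (v xm * v x1) := by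
    rw [← e6, ← map_pow, ← map_mul, hS, map_mul]
    calc v 2 * v ((xm + x1) * (a + xm * x1) + 2 * b) ≤ 1 * (v xm * (v xm * v x1)) := by gcongr
      _ = _ := by ring
  have hq0 : 0 < v xq * v (xm - x1) ^ 2 := mul_pos (by linarith) (by positivity)
  have hp0 : 0 ≤ v xp := v.nonneg _
  nlinarith [mul_pos (sub_pos.2 hcon) hq0]

lemma na_double (hv : IsNonarchimedean v) {a b x X : K} (ha : v a ≤ 1) (hb : v b ≤ 1)
    (h1 : 1 < v x) (h : X * (4 * (x ^ 3 + a * x + b)) =
      x ^ 4 - 2 * a * x ^ 2 - 8 * b * x + a ^ 2) : v x ≤ v X := by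
  have hx0 : 0 < v x := by linarith
  have h2 : v (2 : K) ≤ 1 := by exact_mod_cast na_nat hv 2
  have h4 : v (4 : K) ≤ 1 := by exact_mod_cast na_nat hv 4
  have h8 : v (8 : K) ≤ 1 := by exact_mod_cast na_nat hv 8
  have p2 : 1 < v x ^ 2 := one_lt_pow₀ h1 (by norm_num)
  have p3 : v x < v x ^ 2 := by nlinarith
  have p4 : v x ^ 2 < v x ^ 4 := by nlinarith
  have e1 : v (x ^ 4 - 2 * a * x ^ 2 - 8 * b * x + a ^ 2) = v x ^ 4 := by
    have e : x ^ 4 - 2 * a * x ^ 2 - 8 * b * x + a ^ 2 =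
        x ^ 4 + (-(2 * a * x ^ 2) + (-(8 * b * x) + a ^ 2)) := by ring
    rw [e, na_eq hv, map_pow]
    rw [map_pow]
    refine lt_of_le_of_lt (?_ : _ ≤ v x ^ 2) p4
    refine (hv _ _).trans (max_le ?_ ((hv _ _).trans (max_le ?_ ?_)))
    · rw [v.map_neg, map_mul, map_mul, map_pow]
      calc v 2 * v a * v x ^ 2 ≤ 1 * 1 * v x ^ 2 := by gcongr
        _ = _ := by ring
    · rw [v.map_neg, map_mul, map_mul]
      calc v 8 * v b * v x ≤ 1 * 1 * v x := by gcongr
        _ ≤ _ := by linarith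
    · rw [map_pow]
      calc v a ^ 2 ≤ 1 ^ 2 := by gcongr
        _ ≤ _ := by linarith
  have e2 : v (x ^ 3 + a * x + b) ≤ v x ^ 3 := by
    have p5 : v x ≤ v x ^ 3 := by nlinarith
    refine (hv _ _).trans (max_le ((hv _ _).trans (max_le ?_ ?_)) ?_)
    · rw [map_pow]
    · rw [map_mul]
      calc v a * v x ≤ 1 * v x := by gcongr
        _ ≤ _ := by linarith
    · linarith
  have e3 : v X * (v 4 * v (x ^ 3 + a * x + b)) = v x ^ 4 := by
    rw [← map_mul, ← map_mul, h, e1]
  have e4 : v 4 * v (x ^ 3 + a * x + b) ≤ v x ^ 3 := by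
    calc v 4 * v (x ^ 3 + a * x + b) ≤ 1 * v x ^ 3 := by gcongr
      _ = _ := one_mul _
  have e5 : v x ^ 4 ≤ v X * v x ^ 3 := by
    rw [← e3]
    exact mul_le_mul_of_nonneg_left e4 (v.nonneg _)
  have e6 : v x * v x ^ 3 ≤ v X * v x ^ 3 := by
    calc v x * v x ^ 3 = v x ^ 4 := by ring
      _ ≤ _ := e5
  exact le_of_mul_le_mul_right e6 (by positivity)

/-- **The multiples of a point near the origin are near the origin.** -/
theorem na_mult (hv : IsNonarchimedean v) {a b : K} (ha : v a ≤ 1) (hb : v b ≤ 1)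
    {R : SPt a b} (hR : ∀ n : ℕ, n ≠ 0 → n • R ≠ 0) (h1 : 1 < v (xc R)) (m : ℕ) (hm : m ≠ 0) :
    v (xc R) ≤ v (xc (m • R)) := by
  have hR1 : R ≠ 0 := by simpa using hR 1 one_ne_zero
  have key : ∀ m : ℕ, v (xc R) ≤ v (xc ((m + 1) • R)) ∧ v (xc R) ≤ v (xc ((m + 2) • R)) := by
    intro m
    induction m with
    | zero =>
      refine ⟨by simp, ?_⟩
      have e : (0 + 2) • R = R + R := by rw [zero_add, two_nsmul]
      rw [e]
      refine na_double hv ha hb h1 (double_formula hR1 ?_)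
      have := hR 2 (by norm_num)
      rwa [two_nsmul] at this
    | succ m ih =>
      refine ⟨ih.2, ?_⟩
      have hm2 : (m + 2) • R ≠ 0 := hR _ (by omega)
      have hne1 : (m + 2) • R ≠ R := by
        intro h
        apply hR (m + 1) (by omega)
        have : (m + 2) • R = (m + 1) • R + R := succ_nsmul R (m + 1)
        rw [this] at h
        exact left_eq_add.1 (by rw [add_comm]; exact h.symm)
      have hne2 : (m + 2) • R ≠ -R := by
        intro h
        apply hR (m + 3) (by omega)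
        have : (m + 3) • R = (m + 2) • R + R := succ_nsmul R (m + 2)
        rw [this, h, neg_add_cancel]
      have hx := xc_ne hm2 hR1 hne1 hne2
      obtain ⟨h3, h4⟩ := add_sub_formula hm2 hR1 hx
      have e1 : (m + 2) • R + R = (m + 1 + 2) • R := (succ_nsmul R (m + 2)).symm
      have e2 : (m + 2) • R - R = (m + 1) • R := by
        rw [succ_nsmul R (m + 1), add_sub_cancel_right]
      rw [e1, e2] at h3 h4
      exact na_step hv ha hb h1 ih.2 ih.1 hx h3 h4
  obtain ⟨n, rfl⟩ : ∃ n, m = n + 1 := ⟨m - 1, by omega⟩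
  exact (key n).1

end nonarch

/-! ### The archimedean absolute values -/

section arch

variable (v : AbsoluteValue K ℝ)

/-- if `P` is near the origin, then `P + T` is near `T` -/
theorem arch_add {a b : K} {T : SPt a b} (hT : T ≠ 0) :
    ∃ M : ℝ, ∀ P : SPt a b, P ≠ 0 → M ≤ v (xc P) → P + T ≠ 0 ∧ v (xc (P + T)) ≤ M := by
  obtain ⟨t, z, nT, rfl⟩ := exists_some hT
  obtain ⟨c, hc⟩ : ∃ c : ℝ, c = 1 + v a + v b := ⟨_, rfl⟩
  have hva := v.nonneg a
  have hvb := v.nonneg b
  have hvt := v.nonneg t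
  have hvz := v.nonneg z
  have hc1 : 1 ≤ c := by linarith
  refine ⟨1 + 2 * v t + 4 * (v t * (1 + v t) + v a * (1 + v t) + 2 * v b + 2 * (c * v z)),
    fun P hP h => ?_⟩
  have hnn : 0 ≤ v t * (1 + v t) + v a * (1 + v t) + 2 * v b + 2 * (c * v z) := by positivity
  obtain ⟨x, y, nP, rfl⟩ := exists_some hP
  rw [xc_some] at h
  have hX1 : 1 ≤ v x := by linarith
  have hX2 : 2 * v t ≤ v x := by linarith
  have hxt : x ≠ t := by
    rintro rfl
    linarith
  have e := sw_eqn.mp nP.1
  have n2 : v (2 : K) ≤ 2 := by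
    have : (2 : K) = 1 + 1 := by norm_num
    rw [this]
    refine (v.add_le 1 1).trans ?_
    rw [map_one]; norm_num
  have hy : v y ≤ c * v x ^ 2 := by
    have h1 : v y ^ 2 ≤ v x ^ 3 + v a * v x + v b := by
      rw [← map_pow, e]
      refine (v.add_le _ _).trans (add_le_add ((v.add_le _ _).trans (add_le_add ?_ ?_)) le_rfl)
      · rw [map_pow]
      · rw [map_mul]
    have h2 : v x ^ 3 + v a * v x + v b ≤ (c * v x ^ 2) ^ 2 := by
      have p1 : v x ^ 3 ≤ v x ^ 4 := pow_le_pow_right₀ hX1 (by norm_num)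
      have p2 : v x ≤ v x ^ 4 := le_self_pow₀ hX1 (by norm_num)
      have p3 : 1 ≤ v x ^ 4 := one_le_pow₀ hX1
      calc v x ^ 3 + v a * v x + v b ≤ v x ^ 4 + v a * v x ^ 4 + v b * v x ^ 4 := by
            have := mul_le_mul_of_nonneg_left p2 hva
            have := mul_le_mul_of_nonneg_left p3 hvb
            linarith
        _ = c * v x ^ 4 := by rw [hc]; ring
        _ ≤ c ^ 2 * v x ^ 4 := by
            have : c ≤ c ^ 2 := by nlinarith
            exact mul_le_mul_of_nonneg_right this (by positivity)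
        _ = _ := by ring
    exact le_of_sq_le_sq (h1.trans h2) (by positivity)
  have hne : (Affine.Point.some x y nP + Affine.Point.some t z nT : SPt a b) ≠ 0 := by
    intro h0
    have h1 := eq_neg_of_add_eq_zero_left h0
    have h2 : (Affine.Point.some x y nP : SPt a b).xRep = (Affine.Point.some t z nT : SPt a b).xRep := by
      rw [h1, Affine.Point.xRep_neg]
    rw [Affine.Point.xRep_some, Affine.Point.xRep_some] at h2
    exact hxt (by simpa using congrFun h2 0)
  refine ⟨hne, ?_⟩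
  have h1 : xc (Affine.Point.some x y nP + Affine.Point.some t z nT : SPt a b) =
      snum a b x t (y * z) / (x - t) ^ 2 := by
    rw [xc, sxRep_add nP nT hxt]
    rfl
  rw [h1, map_div₀, map_pow]
  have hd : v x / 2 ≤ v (x - t) := by
    have := v.le_sub x t
    linarith
  have hd0 : 0 < v (x - t) := by linarith
  have hnum : v (snum a b x t (y * z)) ≤
      (v t * (1 + v t) + v a * (1 + v t) + 2 * v b + 2 * (c * v z)) * v x ^ 2 := by
    unfold snum
    have q1 : v (x * t * (x + t)) ≤ v x * v t * (v x + v t) := by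
      rw [map_mul, map_mul]
      exact mul_le_mul_of_nonneg_left (v.add_le _ _) (by positivity)
    have q2 : v (a * (x + t)) ≤ v a * (v x + v t) := by
      rw [map_mul]
      exact mul_le_mul_of_nonneg_left (v.add_le _ _) hva
    have q3 : v (2 * b) ≤ 2 * v b := by
      rw [map_mul]
      exact mul_le_mul_of_nonneg_right n2 hvb
    have q4 : v (2 * (y * z)) ≤ 2 * (c * v x ^ 2 * v z) := by
      rw [map_mul, map_mul]
      exact mul_le_mul n2 (mul_le_mul_of_nonneg_right hy hvz) (by positivity) (by norm_num)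
    have q5 : v (x * t * (x + t) + a * (x + t) + 2 * b - 2 * (y * z)) ≤
        v x * v t * (v x + v t) + v a * (v x + v t) + 2 * v b + 2 * (c * v x ^ 2 * v z) := by
      refine (v.sub_le_add _ _).trans (add_le_add ((v.add_le _ _).trans (add_le_add
        ((v.add_le _ _).trans (add_le_add q1 q2)) q3)) q4)
    refine q5.trans ?_
    have r1 : v x ≤ v x ^ 2 := le_self_pow₀ hX1 (by norm_num)
    have r2 : 1 ≤ v x ^ 2 := one_le_pow₀ hX1
    have r3 : v x * v t * (v x + v t) ≤ v t * (1 + v t) * v x ^ 2 := by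
      have : v x * v t * (v x + v t) = v t * v x ^ 2 + v t ^ 2 * v x := by ring
      rw [this]
      have := mul_le_mul_of_nonneg_left r1 (sq_nonneg (v t))
      nlinarith
    have r4 : v a * (v x + v t) ≤ v a * (1 + v t) * v x ^ 2 := by
      have h5 : v x + v t ≤ (1 + v t) * v x ^ 2 := by
        have := mul_le_mul_of_nonneg_left r2 hvt
        nlinarith
      calc v a * (v x + v t) ≤ v a * ((1 + v t) * v x ^ 2) := mul_le_mul_of_nonneg_left h5 hva
        _ = _ := by ring
    have r5 : 2 * v b ≤ 2 * v b * v x ^ 2 := by nlinarith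
    nlinarith
  rw [div_le_iff₀ (by positivity)]
  have hd2 : v x ^ 2 / 4 ≤ v (x - t) ^ 2 := by nlinarith
  refine hnum.trans ?_
  calc (v t * (1 + v t) + v a * (1 + v t) + 2 * v b + 2 * (c * v z)) * v x ^ 2
      = 4 * (v t * (1 + v t) + v a * (1 + v t) + 2 * v b + 2 * (c * v z)) * (v x ^ 2 / 4) := by
        ring
    _ ≤ (1 + 2 * v t + 4 * (v t * (1 + v t) + v a * (1 + v t) + 2 * v b + 2 * (c * v z))) *
        v (x - t) ^ 2 := by
        refine mul_le_mul ?_ hd2 (by positivity) (by positivity)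
        linarith

end arch

end Pool.Agent.X236.VE
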