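import Pool.Agent.X236.VE.Fin
import Pool.Agent.Y733.VR.Ext

/-!
# The discriminant of `k(√δ)`
-/

set_option autoImplicit false

open NumberField IsDedekindDomain Height Module Polynomial
open Pool.Agent.Y733.VR

namespace Pool.Agent.X236.VE

/-- the discriminant of a quadratic extension generated by a square root of an integer -/
lemma ld_sqrt (k L : Type) [Field k] [NumberField k] [Field L] [NumberField L] [Algebra k L]
    (w : L) (hw : IntermediateField.adjoin k {w} = ⊤) (δ t : k) (u : 𝓞 k) (hu0 : u ≠ 0)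
    (ht : t ≠ 0) (hu : (u : k) = δ * t ^ 2) (hwδ : w ^ 2 = algebraMap k L δ) :
    ld L ≤ ld k + Real.log 2 + Real.log |(Algebra.norm ℚ (u : k) : ℝ)| / finrank ℚ k / 2 := by
  set β' : L := w * algebraMap k L t with hβ'
  have hβ2 : β' ^ 2 = algebraMap k L (u : k) := by
    rw [hβ', mul_pow, hwδ, hu, map_mul, map_pow]
  have hint : IsIntegral ℤ β' := by
    have h1 : IsIntegral ℤ (algebraMap k L (u : k)) :=
      (RingOfIntegers.isIntegral_coe u).map ((algebraMap k L).toIntAlgHom)
    rw [← hβ2] at h1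
    exact IsIntegral.of_pow (by norm_num) h1
  set β : 𝓞 L := ⟨β', hint⟩ with hβ
  have hβc : (β : L) = β' := rfl
  have hgen : IntermediateField.adjoin k {(β : L)} = ⊤ := by
    rw [← hw]
    apply le_antisymm
    · rw [IntermediateField.adjoin_le_iff, Set.singleton_subset_iff, hβc, hβ']
      exact mul_mem (IntermediateField.mem_adjoin_simple_self k w)
        (IntermediateField.algebraMap_mem _ _)
    · rw [IntermediateField.adjoin_le_iff, Set.singleton_subset_iff]
      have h1 : w = β' * (algebraMap k L t)⁻¹ := by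
        rw [hβ', mul_assoc, mul_inv_cancel₀, mul_one]
        rwa [Ne, map_eq_zero]
      rw [h1]
      exact mul_mem (IntermediateField.mem_adjoin_simple_self k _)
        (inv_mem (IntermediateField.algebraMap_mem _ _))
  have hu0' : (u : k) ≠ 0 := by
    intro h
    exact hu0 (by exact_mod_cast h)
  have hβ0 : β' ≠ 0 := by
    intro h
    rw [h] at hβ2
    simp only [ne_eq, OfNat.ofNat_ne_zero, not_false_eq_true, zero_pow] at hβ2
    exact hu0' ((map_eq_zero _).1 hβ2.symm)
  have hf : aeval β (X ^ 2 - C u : (𝓞 k)[X]) = 0 := by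
    rw [map_sub, map_pow, aeval_X, aeval_C]
    apply RingOfIntegers.coe_injective
    have h1 : ((algebraMap (𝓞 k) (𝓞 L) u : 𝓞 L) : L) = algebraMap k L (u : k) := rfl
    have h2 : ((β ^ 2 - algebraMap (𝓞 k) (𝓞 L) u : 𝓞 L) : L) = β' ^ 2 - algebraMap k L (u : k) := by
      rw [← h1]
      push_cast
      rfl
    exact h2.trans (by rw [hβ2, sub_self]; rfl)
  have hder : (aeval β (derivative (X ^ 2 - C u : (𝓞 k)[X])) : 𝓞 L) = 2 * β := by
    simp
    left
    norm_num
  have hne : (aeval β (derivative (X ^ 2 - C u : (𝓞 k)[X])) : 𝓞 L) ≠ 0 := by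
    rw [hder]
    refine mul_ne_zero two_ne_zero fun h => hβ0 ?_
    rw [← hβc, h]
    rfl
  have h := ld_le k L β hgen _ hf hne
  rw [hder] at h
  have e1 : ((2 * β : 𝓞 L) : L) = (2 : ℕ) * β' := by push_cast; rfl
  rw [e1] at h
  have e2 : ln ((2 : ℕ) * β') = Real.log 2 + ln β' := by
    rw [ln_mul _ _ (by norm_num) hβ0, ln_natCast 2 (by norm_num)]
    norm_num
  have e3 : 2 * ln β' = Real.log |(Algebra.norm ℚ (u : k) : ℝ)| / finrank ℚ k := by
    have h1 : ln (β' ^ 2) = 2 * ln β' := by
      rw [pow_two, ln_mul _ _ hβ0 hβ0]; ring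
    rw [← h1, hβ2, ln, ← Algebra.norm_norm (S := k), Algebra.norm_algebraMap, map_pow,
      finrank_tower k L]
    push_cast
    rw [abs_pow, Real.log_pow]
    have hK : (0 : ℝ) < finrank ℚ k := deg_pos
    have hKL : (0 : ℝ) < finrank k L := by exact_mod_cast finrank_pos
    field_simp
  have e4 : ln ((2 : ℕ) * β') = Real.log |(Algebra.norm ℚ (((2 : ℕ) : L) * β') : ℝ)| /
      finrank ℚ L := rfl
  rw [← e4, e2] at h
  linarith

end Pool.Agent.X236.VE
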